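import Mathlib
import Pool.Agent.U247.VN.Two

/-!
The inequality `v(I) ≤ depth(R/I)` fails for squarefree monomial ideals: over every field and for
every `d ≥ 1` there is a squarefree monomial ideal with `depth (R/I) = 1` and `v(I) = d`.
(The Stanley-Reisner ideal of the disjoint union of two boundaries of `d`-simplices; for `d = 2`
this is the disjoint union of two hollow triangles, in six variables.)
-/

namespace Pool.Agent.Results.MP_d06a13_ag.DepthOneAnyV

open Pool.Agent.U247.VN

theorem result (K : Type*) [Field K] (d : ℕ) (hd : 1 ≤ d) :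
    ∃ (n : ℕ) (I : Ideal (MvPolynomial (Fin n) K)),
      IsSquarefreeMonomialIdeal I ∧ depthQuot I = 1 ∧ vNumber I = d := by
  classical
  let P : Finset (Fin (2 * (d + 1))) := Finset.univ.map
    ⟨fun i : Fin (d + 1) => (⟨i.1, by omega⟩ : Fin (2 * (d + 1))),
      fun i j h => Fin.ext (by simpa using h)⟩
  have hP : P.card = d + 1 := by simp [P]
  have hQ : Pᶜ.card = d + 1 := by
    rw [Finset.card_compl, hP, Fintype.card_fin]; omega
  have hdis : Disjoint P Pᶜ := disjoint_compl_right
  have hc : ∀ i, i ∈ P ∨ i ∈ Pᶜ := fun i => by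
    by_cases h : i ∈ P
    · exact Or.inl h
    · exact Or.inr (Finset.mem_compl.2 h)
  exact ⟨2 * (d + 1), two K P Pᶜ, two_squarefree (by omega) (by omega) hc,
    depth_two (by omega) (by omega) hdis hc, vNumber_two hd hP hQ hdis⟩

end Pool.Agent.Results.MP_d06a13_ag.DepthOneAnyV
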